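import Pool.Agent.N89.HG.Stm
import Pool.Agent.N568.HX.NF

/-!
# HG/TRG (project HG of helper89, subtask 5130): transfer to large characteristic

The resolvent and the discriminant on the generic line `y + x v` are polynomials over
`𝓞 K [y, v, ω]`; the condition of irreducibility is given by Noether's forms.
-/

set_option autoImplicit false

namespace Pool.Agent.N42.HG.TRG

open Polynomial NumberField Pool.Agent.N89.HX Pool.Agent.N89.HG

section gen
variable {O A : Type} [CommRing O] [CommRing A] {k e : ℕ}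

/-- the polynomial ring in the coordinates of `y`, `v`, `ω` -/
abbrev U (O : Type) [CommRing O] (k e : ℕ) : Type := MvPolynomial (Fin k ⊕ (Fin k ⊕ Fin e)) O

/-- the generic points -/
noncomputable def yU : Fin k → U O k e := fun j => MvPolynomial.X (Sum.inl j)
noncomputable def vU : Fin k → U O k e := fun j => MvPolynomial.X (Sum.inr (Sum.inl j))
noncomputable def wU : Fin e → U O k e := fun j => MvPolynomial.X (Sum.inr (Sum.inr j))

/-- the specialisation -/
noncomputable def sp (φ : O →+* A) (y v : Fin k → A) (ω : Fin e → A) : U O k e →+* A :=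
  MvPolynomial.eval₂Hom φ (Sum.elim y (Sum.elim v ω))

/-- the coefficients of the generic line -/
noncomputable def cC : O →+* (U O k e)[X] := (C : U O k e →+* (U O k e)[X]).comp MvPolynomial.C

theorem map_cC (φ : O →+* A) (y v : Fin k → A) (ω : Fin e → A) :
    (mapRingHom (sp φ y v ω)).comp (cC (O := O) (k := k) (e := e)) = (C : A →+* A[X]).comp φ := by
  ext x
  simp [cC, sp]

theorem map_pt (φ : O →+* A) (y v : Fin k → A) (ω : Fin e → A) (j : Fin k) :
    mapRingHom (sp φ y v ω) (pt (yU (O := O) (e := e)) vU j) = pt y v j := by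
  simp [pt, sp, yU, vU]

theorem map_wU (φ : O →+* A) (y v : Fin k → A) (ω : Fin e → A) (j : Fin e) :
    mapRingHom (sp φ y v ω) (C (wU (O := O) (k := k) j)) = C (ω j) := by
  simp [sp, wU]

/-- the generic coefficients of the resolvent -/
noncomputable def cf {m : ℕ} (R : Fin m → MvPolynomial (Fin k ⊕ Fin e) O) (i : Fin m) :
    (U O k e)[X] :=
  MvPolynomial.eval₂ cC (Sum.elim (pt yU vU) (fun i => C (wU i))) (R i)

theorem map_cf {m : ℕ} (R : Fin m → MvPolynomial (Fin k ⊕ Fin e) O) (i : Fin m) (φ : O →+* A)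
    (y v : Fin k → A) (ω : Fin e → A) : (cf R i).map (sp φ y v ω) =
      MvPolynomial.eval₂ ((C : A →+* A[X]).comp φ) (Sum.elim (pt y v) (fun i => C (ω i))) (R i) := by
  rw [← coe_mapRingHom, cf, MvPolynomial.eval₂_comp_left, map_cC]
  congr 1
  funext x
  rcases x with j | j
  · exact map_pt φ y v ω j
  · exact map_wU φ y v ω j

/-- a bound for the degrees -/
noncomputable def bd {m : ℕ} (R : Fin m → MvPolynomial (Fin k ⊕ Fin e) O) : ℕ :=
  Finset.univ.sup fun i => (cf R i).natDegree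

theorem map_cf' {m : ℕ} (R : Fin m → MvPolynomial (Fin k ⊕ Fin e) O) (i : Fin m) (φ : O →+* A)
    (y v : Fin k → A) (ω : Fin e → A) : (cf R i).map (sp φ y v ω) =
      ∑ j : Fin (bd R + 1), C (sp φ y v ω ((cf R i).coeff j)) * X ^ (j : ℕ) := by
  have h1 : ((cf R i).map (sp φ y v ω)).natDegree < bd R + 1 :=
    (natDegree_map_le).trans_lt (Nat.lt_succ_of_le (Finset.le_sup (f := fun i => (cf R i).natDegree)
      (Finset.mem_univ i)))
  have h2 := as_sum_range' ((cf R i).map (sp φ y v ω)) (bd R + 1) h1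
  rw [Finset.sum_range] at h2
  rw [h2]
  refine Finset.sum_congr rfl fun j _ => ?_
  rw [coeff_map, C_mul_X_pow_eq_monomial]

theorem rg_eq {m : ℕ} (R : Fin m → MvPolynomial (Fin k ⊕ Fin e) O) (φ : O →+* A)
    (y v : Fin k → A) (ω : Fin e → A) :
    rg ((C : A →+* A[X]).comp φ) R (pt y v) (fun i => C (ω i)) =
      bp (fun (i : Fin m) (j : Fin (bd R + 1)) => sp φ y v ω ((cf R i).coeff j)) := by
  unfold rg bp
  refine congrArg (fun z => X ^ m + z) (Finset.sum_congr rfl fun i _ => ?_)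
  rw [← map_cf, map_cf']

/-- the generic value of `D` -/
noncomputable def dU (h : Fin (e + 1) → MvPolynomial (Fin k) O)
    (D : MvPolynomial (Fin (e + 1)) ℤ) : (U O k e)[X] :=
  MvPolynomial.aeval (ev (cC (O := O) (k := k) (e := e)) h (pt yU vU)) D

theorem map_dU (h : Fin (e + 1) → MvPolynomial (Fin k) O) (D : MvPolynomial (Fin (e + 1)) ℤ)
    (φ : O →+* A) (y v : Fin k → A) (ω : Fin e → A) : (dU h D).map (sp φ y v ω) =
      MvPolynomial.aeval (ev ((C : A →+* A[X]).comp φ) h (pt y v)) D := by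
  rw [← coe_mapRingHom, dU, MvPolynomial.aeval_def, MvPolynomial.aeval_def,
    MvPolynomial.eval₂_comp_left]
  congr 1
  · exact RingHom.ext_int _ _
  · funext i
    show mapRingHom (sp φ y v ω) (MvPolynomial.eval₂ _ _ (h i)) = MvPolynomial.eval₂ _ _ (h i)
    rw [MvPolynomial.eval₂_comp_left, map_cC]
    congr 1
    funext j
    exact map_pt φ y v ω j

end gen

theorem norm_ne {K : Type} [Field K] [NumberField K] {a : 𝓞 K} (ha : a ≠ 0) {p : ℕ}
    (hp : (Algebra.norm ℤ a).natAbs < p) {Ω : Type} [Field Ω] [CharP Ω p] (φ : 𝓞 K →+* Ω) :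
    φ a ≠ 0 := by
  intro h0
  have h1 : a ∣ ((Algebra.norm ℤ a).natAbs : 𝓞 K) := by
    have h2 := Ideal.absNorm_mem (Ideal.span {a})
    rw [Ideal.absNorm_span_singleton, Ideal.mem_span_singleton] at h2
    exact h2
  obtain ⟨b, hb⟩ := h1
  have h2 : ((Algebra.norm ℤ a).natAbs : Ω) = 0 := by
    have h3 := congrArg φ hb
    rw [map_mul, h0, zero_mul, map_natCast] at h3
    exact h3
  rw [CharP.cast_eq_zero_iff Ω p] at h2
  have h4 : Algebra.norm ℤ a ≠ 0 := Algebra.norm_ne_zero_iff.2 ha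
  have h6 := Nat.le_of_dvd (Int.natAbs_pos.2 h4) h2
  omega

theorem trg (hNF : S_NF) : S_TRG := by
  intro K _ _ k e h 𝒢 _ R D φ₀ y v ω hD hI
  have hn : 1 ≤ Fintype.card 𝒢 := Fintype.card_pos
  obtain ⟨J, _, Δ, hΔ⟩ := hNF (Fintype.card 𝒢) (bd R.R) hn
  rw [rg_eq, hΔ] at hI
  obtain ⟨j₀, hj₀⟩ := hI
  have hsp : ∀ (A : Type) [CommRing A] (θ : U (𝓞 K) k e →+* A),
      MvPolynomial.aeval (fun ij : Fin (Fintype.card 𝒢) × Fin (bd R.R + 1) =>
        θ ((cf R.R ij.1).coeff ij.2)) (Δ j₀) =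
      θ (MvPolynomial.aeval (fun ij : Fin (Fintype.card 𝒢) × Fin (bd R.R + 1) =>
        (cf R.R ij.1).coeff ij.2) (Δ j₀)) := by
    intro A _ θ
    rw [MvPolynomial.aeval_def, MvPolynomial.aeval_def, MvPolynomial.eval₂_comp_left]
    congr 1
    exact RingHom.ext_int _ _
  rw [hsp] at hj₀
  obtain ⟨Q₁, hQ₁⟩ : ∃ Q₁, Q₁ = MvPolynomial.aeval (fun ij : Fin (Fintype.card 𝒢) ×
    Fin (bd R.R + 1) => (cf R.R ij.1).coeff ij.2) (Δ j₀) := ⟨_, rfl⟩
  rw [← hQ₁] at hj₀
  rw [← map_dU h D φ₀ y v ω] at hD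
  obtain ⟨l, hl⟩ : ∃ l, ((dU h D).map (sp φ₀ y v ω)).coeff l ≠ 0 := by
    by_contra hcon
    push Not at hcon
    exact hD (Polynomial.ext fun l => by simpa using hcon l)
  rw [coeff_map] at hl
  have hQ : sp φ₀ y v ω (Q₁ * (dU h D).coeff l) ≠ 0 := by
    rw [map_mul]
    exact mul_ne_zero hj₀ hl
  obtain ⟨Q, hQdef⟩ : ∃ Q, Q = Q₁ * (dU h D).coeff l := ⟨_, rfl⟩
  rw [← hQdef] at hQ
  have hQ0 : Q ≠ 0 := by
    rintro rfl
    exact hQ (map_zero _)
  obtain ⟨μ, hμ⟩ := MvPolynomial.ne_zero_iff.1 hQ0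
  refine ⟨(Algebra.norm ℤ (MvPolynomial.coeff μ Q)).natAbs + 1, fun p hp hpp Ω _ _ _ φ => ?_⟩
  have h1 : φ (MvPolynomial.coeff μ Q) ≠ 0 := norm_ne hμ (by omega) φ
  have h2 : MvPolynomial.map φ Q ≠ 0 := by
    intro h0
    apply h1
    rw [← MvPolynomial.coeff_map, h0, MvPolynomial.coeff_zero]
  have hinf : Infinite Ω := IsAlgClosed.instInfinite
  obtain ⟨z, hz⟩ : ∃ z, MvPolynomial.eval z (MvPolynomial.map φ Q) ≠ 0 := by
    by_contra hcon
    push Not at hcon
    exact h2 (MvPolynomial.funext fun z => by rw [hcon z, map_zero])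
  rw [MvPolynomial.eval_map] at hz
  refine ⟨fun j => z (Sum.inl j), fun j => z (Sum.inr (Sum.inl j)),
    fun j => z (Sum.inr (Sum.inr j)), ?_⟩
  have hz' : sp φ (fun j => z (Sum.inl j)) (fun j => z (Sum.inr (Sum.inl j)))
      (fun j => z (Sum.inr (Sum.inr j))) Q ≠ 0 := by
    have : (Sum.elim (fun j => z (Sum.inl j)) (Sum.elim (fun j => z (Sum.inr (Sum.inl j)))
      (fun j => z (Sum.inr (Sum.inr j))))) = z := by
      funext x
      rcases x with x | x | x <;> rfl
    unfold sp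
    rw [this]
    exact hz
  rw [hQdef, map_mul] at hz'
  constructor
  · rw [← map_dU h D φ _ _ (fun j => z (Sum.inr (Sum.inr j)))]
    intro h0
    apply right_ne_zero_of_mul hz'
    rw [← coeff_map, h0, coeff_zero]
  · rw [rg_eq, hΔ]
    refine ⟨j₀, ?_⟩
    rw [hsp, ← hQ₁]
    exact left_ne_zero_of_mul hz'

theorem main : S_TRG := trg Pool.Agent.N568.HX.NF.main

end Pool.Agent.N42.HG.TRG
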