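import Pool.Agent.N549.HG.Stm3

/-!
# HG/CONT2: the sharp container recursion (project HG, subtask 4254)

The recursion is `d log z = lam * exp (- lam * ...)`: the set `K` is emptied one heavy vertex at a
time along a measurable exhaustion into `m` pieces of measure at most `1/m`, and the partition
function is compared with the solution `psi` of `a * exp a = L * h`.
-/

set_option autoImplicit false

namespace Pool.Agent.N42.HG

open MeasureTheory Set
open Pool.Agent.N549.HG (S_CONT2)


/-! ### the function `ψ` -/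

theorem ex_psi {L h : ℝ} (hL : 0 < L) (hh : 0 ≤ h) : ∃ a : ℝ, 0 ≤ a ∧ a * Real.exp a = L * h := by
  have hLh : 0 ≤ L * h := mul_nonneg hL.le hh
  have hc : ContinuousOn (fun a : ℝ => a * Real.exp a) (Icc 0 (L * h)) :=
    (continuous_id.mul Real.continuous_exp).continuousOn
  have h1 := intermediate_value_Icc hLh hc
  have h2 : L * h ∈ Icc ((fun a : ℝ => a * Real.exp a) 0) ((fun a : ℝ => a * Real.exp a) (L * h)) := by
    constructor
    · simpa using hLh
    · have h3 : 1 ≤ Real.exp (L * h) := Real.one_le_exp hLh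
      simpa using mul_le_mul_of_nonneg_left h3 hLh
  obtain ⟨a, ha, ha'⟩ := h1 h2
  exact ⟨a, ha.1, ha'⟩

open Classical in
/-- the solution of `a e ^ a = L h` -/
noncomputable def psi (L h : ℝ) : ℝ :=
  if H : 0 < L ∧ 0 ≤ h then Classical.choose (ex_psi H.1 H.2) else 0

theorem psi_spec {L h : ℝ} (hL : 0 < L) (hh : 0 ≤ h) :
    0 ≤ psi L h ∧ psi L h * Real.exp (psi L h) = L * h := by
  unfold psi
  rw [dif_pos ⟨hL, hh⟩]
  exact Classical.choose_spec (ex_psi hL hh)

theorem xex_lt {a b : ℝ} (ha : 0 ≤ a) (hab : a < b) : a * Real.exp a < b * Real.exp b := by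
  have h1 : Real.exp a < Real.exp b := Real.exp_lt_exp.2 hab
  have h2 := Real.exp_pos a
  calc a * Real.exp a ≤ a * Real.exp b := mul_le_mul_of_nonneg_left h1.le ha
    _ < b * Real.exp b := mul_lt_mul_of_pos_right hab (Real.exp_pos b)

theorem psi_mono {L s h : ℝ} (hL : 0 < L) (hs : 0 ≤ s) (hsh : s ≤ h) : psi L s ≤ psi L h := by
  obtain ⟨h1, h2⟩ := psi_spec hL hs
  obtain ⟨h3, h4⟩ := psi_spec hL (hs.trans hsh)
  by_contra hcon
  rw [not_le] at hcon
  have h5 := xex_lt h3 hcon
  rw [h2, h4] at h5
  have := mul_le_mul_of_nonneg_left hsh hL.le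
  linarith

theorem psi_eq {L h w : ℝ} (hL : 0 < L) (hh : 0 ≤ h) (hw : 0 ≤ w) (he : w * Real.exp w = L * h) :
    psi L h = w := by
  obtain ⟨h3, h4⟩ := psi_spec hL hh
  rcases lt_trichotomy (psi L h) w with h | h | h
  · have := xex_lt h3 h
    rw [h4, he] at this
    exact absurd this (lt_irrefl _)
  · exact h
  · have := xex_lt hw h
    rw [h4, he] at this
    exact absurd this (lt_irrefl _)

theorem psi_pos {L h : ℝ} (hL : 0 < L) (hh : 0 < h) : 0 < psi L h := by
  obtain ⟨h3, h4⟩ := psi_spec hL hh.le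
  rcases h3.lt_or_eq with h | h
  · exact h
  · rw [← h, zero_mul] at h4
    have := mul_pos hL hh
    linarith

theorem psi_le {L h : ℝ} (hL : 0 < L) (hh : 0 ≤ h) : psi L h ≤ L * h := by
  obtain ⟨h3, h4⟩ := psi_spec hL hh
  rw [← h4]
  exact le_mul_of_one_le_right h3 (Real.one_le_exp h3)

/-- the potential beyond `κ` -/
noncomputable def PP (L h : ℝ) : ℝ := psi L h + psi L h ^ 2 / 2

/-- the tangent inequality -/
theorem PP_tan {L s h : ℝ} (hL : 0 < L) (hs : 0 ≤ s) (hsh : s ≤ h) (hh : 0 < h) :
    (h - s) * (psi L h / h) ≤ PP L h - PP L s := by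
  obtain ⟨b0, b1⟩ := psi_spec hL hs
  obtain ⟨_, a1⟩ := psi_spec hL hh.le
  have a0 := psi_pos hL hh
  have hba := psi_mono hL hs hsh
  unfold PP
  set a := psi L h with ha
  set b := psi L s with hb
  -- `s / h = (b / a) e ^ (b - a)`
  have e1 : s * a = h * (b * Real.exp (b - a)) := by
    have e2 : L * (s * a) = L * (h * (b * Real.exp (b - a))) := by
      have e3 : Real.exp b = Real.exp (b - a) * Real.exp a := by
        rw [← Real.exp_add]
        congr 1
        ring
      calc L * (s * a) = (L * s) * a := by ring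
        _ = b * Real.exp b * a := by rw [b1]
        _ = b * (Real.exp (b - a) * Real.exp a) * a := by rw [e3]
        _ = (a * Real.exp a) * (b * Real.exp (b - a)) := by ring
        _ = L * h * (b * Real.exp (b - a)) := by rw [a1]
        _ = _ := by ring
    exact mul_left_cancel₀ hL.ne' e2
  have e4 : (h - s) * (a / h) = a - b * Real.exp (b - a) := by
    have : (h - s) * (a / h) = (h * a - s * a) / h := by ring
    rw [this, e1]
    field_simp
  rw [e4]
  have h5 : b - a + 1 ≤ Real.exp (b - a) := Real.add_one_le_exp _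
  have h6 : b * (b - a + 1) ≤ b * Real.exp (b - a) := mul_le_mul_of_nonneg_left h5 b0
  nlinarith [sq_nonneg (a - b)]

theorem PP_nonneg {L h : ℝ} (hL : 0 < L) (hh : 0 ≤ h) : 0 ≤ PP L h := by
  have := (psi_spec hL hh).1
  unfold PP
  positivity

theorem PP_mono {L s h : ℝ} (hL : 0 < L) (hs : 0 ≤ s) (hsh : s ≤ h) : PP L s ≤ PP L h := by
  have h1 := psi_mono hL hs hsh
  have h2 := (psi_spec hL hs).1
  unfold PP
  nlinarith

/-- the potential -/
noncomputable def Ph (L κ g : ℝ) : ℝ := if g ≤ κ then L * g else L * κ + PP L (g - κ)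

theorem Ph_tan {L κ g s : ℝ} (hL : 0 < L) (hg : κ < g) (hs : 0 ≤ s) (hsg : s ≤ g) :
    (g - s) * (psi L (g - κ) / (g - κ)) ≤ Ph L κ g - Ph L κ s := by
  have hh : 0 < g - κ := by linarith
  unfold Ph
  rw [if_neg (not_le.2 hg)]
  split_ifs with h
  · have h1 : psi L (g - κ) ≤ PP L (g - κ) := by
      unfold PP
      nlinarith [sq_nonneg (psi L (g - κ))]
    have h2 : psi L (g - κ) / (g - κ) ≤ L := by
      rw [div_le_iff₀ hh]
      exact psi_le hL hh.le
    have h3 : (κ - s) * (psi L (g - κ) / (g - κ)) ≤ (κ - s) * L :=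
      mul_le_mul_of_nonneg_left h2 (by linarith)
    have h4 : (g - κ) * (psi L (g - κ) / (g - κ)) = psi L (g - κ) := by
      field_simp
    have h5 : (g - s) * (psi L (g - κ) / (g - κ)) =
        (κ - s) * (psi L (g - κ) / (g - κ)) + (g - κ) * (psi L (g - κ) / (g - κ)) := by ring
    rw [h5, h4]
    linarith
  · rw [not_le] at h
    have h1 := PP_tan hL (s := s - κ) (h := g - κ) (by linarith) (by linarith) hh
    have h2 : g - κ - (s - κ) = g - s := by ring
    rw [h2] at h1
    linarith

theorem Ph_mono {L κ g s : ℝ} (hL : 0 < L) (hs : 0 ≤ s) (hsg : s ≤ g) : Ph L κ s ≤ Ph L κ g := by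
  rcases le_or_gt g κ with h | h
  · unfold Ph
    rw [if_pos h, if_pos (hsg.trans h)]
    exact mul_le_mul_of_nonneg_left hsg hL.le
  · have h1 := Ph_tan hL h hs hsg
    have h2 : 0 ≤ psi L (g - κ) / (g - κ) :=
      div_nonneg (psi_spec hL (by linarith)).1 (by linarith)
    have h3 : 0 ≤ (g - s) * (psi L (g - κ) / (g - κ)) := mul_nonneg (by linarith) h2
    linarith

theorem Ph_base {L κ g ξ : ℝ} (hL : 0 < L) (hξ : 0 ≤ ξ) (hg : g ≤ κ + ξ) :
    L * g ≤ Ph L κ g + L * ξ := by
  have hLξ : 0 ≤ L * ξ := mul_nonneg hL.le hξ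
  unfold Ph
  split_ifs with h
  · linarith
  · rw [not_le] at h
    have h1 := PP_nonneg hL (h := g - κ) (by linarith)
    have h2 := mul_le_mul_of_nonneg_left hg hL.le
    linarith

/-- one step of the recursion, in terms of real numbers -/
theorem step_ineq {L D κ g ξ η M β lam : ℝ} (hL : 0 < L) (hD : 0 < D) (hlam : lam * D = L)
    (hη0 : 0 < η) (hη1 : η < 1) (hM : M = 1 / (D * (1 - η))) (hg : κ < g)
    (hβ0 : 0 ≤ β) (hβg : β ≤ g) (hd0 : (1 - η) * D * (g - κ) ≤ g)
    (hβ1 : M * L * β ≤ 1) (hβ2 : M ^ 2 * L * β ≤ η / D) :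
    Real.exp (M * (Ph L κ (g - β) + L * ξ)) +
      lam * β * Real.exp (M * (Ph L κ (g - (1 - η) * D * (g - κ)) + L * ξ)) ≤
      Real.exp (M * (Ph L κ g + L * ξ)) := by
  have hh : 0 < g - κ := by linarith
  have h1η : 0 < 1 - η := by linarith
  have hM0 : 0 < M := by rw [hM]; positivity
  obtain ⟨_, hpsi⟩ := psi_spec hL hh.le
  have hpsi0 := psi_pos hL hh
  set q := psi L (g - κ) / (g - κ) with hq
  have hq0 : 0 < q := div_pos hpsi0 hh
  have hqL : q ≤ L := by
    rw [hq, div_le_iff₀ hh]
    exact psi_le hL hh.le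
  set E := Real.exp (M * (Ph L κ g + L * ξ)) with hE
  have hE0 : 0 < E := Real.exp_pos _
  -- first term
  have t1 := Ph_tan hL hg (s := g - β) (by linarith) (by linarith)
  rw [← hq, show g - (g - β) = β by ring] at t1
  set x := M * β * q with hx
  have hx0 : 0 ≤ x := by positivity
  have hx1 : x ≤ 1 := by
    calc x = M * q * β := by rw [hx]; ring
      _ ≤ M * L * β := mul_le_mul_of_nonneg_right (mul_le_mul_of_nonneg_left hqL hM0.le) hβ0
      _ ≤ 1 := hβ1
  have e1 : Real.exp (M * (Ph L κ (g - β) + L * ξ)) ≤ E * (1 - x + x ^ 2) := by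
    have h1 : M * (Ph L κ (g - β) + L * ξ) ≤ M * (Ph L κ g + L * ξ) + -x := by
      have := mul_le_mul_of_nonneg_left t1 hM0.le
      rw [hx]
      nlinarith
    have h2 : Real.exp (-x) ≤ 1 - x + x ^ 2 := by
      have h3 := (abs_le.1 (Real.abs_exp_sub_one_sub_id_le (x := -x) (by
        rw [abs_neg, abs_of_nonneg hx0]; exact hx1))).2
      have h4 : (-x) ^ 2 = x ^ 2 := by ring
      rw [h4] at h3
      linarith
    calc Real.exp (M * (Ph L κ (g - β) + L * ξ)) ≤ Real.exp (M * (Ph L κ g + L * ξ) + -x) :=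
          Real.exp_le_exp.2 h1
      _ = E * Real.exp (-x) := by rw [Real.exp_add]
      _ ≤ E * (1 - x + x ^ 2) := mul_le_mul_of_nonneg_left h2 hE0.le
  -- second term
  have hd1 : 0 ≤ (1 - η) * D * (g - κ) := by positivity
  have t2 := Ph_tan hL hg (s := g - (1 - η) * D * (g - κ)) (by linarith) (by linarith)
  rw [← hq, show g - (g - (1 - η) * D * (g - κ)) = (1 - η) * D * (g - κ) by ring] at t2
  have e2 : Real.exp (M * (Ph L κ (g - (1 - η) * D * (g - κ)) + L * ξ)) ≤ E * (q / L) := by
    have h1 : M * ((1 - η) * D * (g - κ) * q) = psi L (g - κ) := by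
      rw [hM, hq]
      field_simp
    have h2 : M * (Ph L κ (g - (1 - η) * D * (g - κ)) + L * ξ) ≤
        M * (Ph L κ g + L * ξ) + -psi L (g - κ) := by
      have := mul_le_mul_of_nonneg_left t2 hM0.le
      rw [h1] at this
      linarith
    have h3 : Real.exp (-psi L (g - κ)) = q / L := by
      rw [Real.exp_neg, hq, inv_eq_one_div, div_div, div_eq_div_iff (Real.exp_pos _).ne' (by positivity)]
      rw [hpsi]
      ring
    calc Real.exp (M * (Ph L κ (g - (1 - η) * D * (g - κ)) + L * ξ)) ≤
        Real.exp (M * (Ph L κ g + L * ξ) + -psi L (g - κ)) := Real.exp_le_exp.2 h2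
      _ = E * (q / L) := by rw [Real.exp_add, h3]
  have hlam0 : 0 < lam := by
    by_contra hcon
    rw [not_lt] at hcon
    have := mul_nonpos_of_nonpos_of_nonneg hcon hD.le
    linarith
  have e3 : lam * β * Real.exp (M * (Ph L κ (g - (1 - η) * D * (g - κ)) + L * ξ)) ≤
      E * (β * q / D) := by
    refine (mul_le_mul_of_nonneg_left e2 (by positivity)).trans (le_of_eq ?_)
    rw [← hlam]
    field_simp
  have hMD : 1 / D + η / D ≤ M := by
    rw [hM, ← add_div, div_le_div_iff₀ hD (by positivity)]
    have : (1 + η) * (D * (1 - η)) = D - D * η ^ 2 := by ring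
    have h2 : 0 ≤ D * η ^ 2 := by positivity
    linarith
  have hx2 : x ^ 2 ≤ β * q * (η / D) := by
    have h1 : M ^ 2 * q * β ≤ η / D := by
      refine le_trans ?_ hβ2
      exact mul_le_mul_of_nonneg_right (mul_le_mul_of_nonneg_left hqL (by positivity)) hβ0
    have h2 : x ^ 2 = β * q * (M ^ 2 * q * β) := by rw [hx]; ring
    rw [h2]
    exact mul_le_mul_of_nonneg_left h1 (by positivity)
  have hfin : 1 - x + x ^ 2 + β * q / D ≤ 1 := by
    have h1 : β * q * (1 / D + η / D) ≤ β * q * M := mul_le_mul_of_nonneg_left hMD (by positivity)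
    have h2 : β * q * (1 / D + η / D) = β * q / D + β * q * (η / D) := by ring
    have h3 : β * q * M = x := by rw [hx]; ring
    linarith
  calc _ ≤ E * (1 - x + x ^ 2) + E * (β * q / D) := add_le_add e1 e3
    _ = E * (1 - x + x ^ 2 + β * q / D) := by ring
    _ ≤ E * 1 := mul_le_mul_of_nonneg_left hfin hE0.le
    _ = E := mul_one _

theorem cont2 : S_CONT2 := by
  intro Ω _ μ _ N hN hNm hQ D κ lam w hD hκ hw hlamw hsup z hz1 hz0 hzm hzr
  obtain ⟨L, hL⟩ : ∃ L, L = lam * D := ⟨_, rfl⟩
  have hL0 : 0 < L := by rw [hL, hlamw]; positivity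
  have hlam0 : 0 < lam := by
    by_contra hcon
    rw [not_lt] at hcon
    have := mul_nonpos_of_nonpos_of_nonneg hcon hD.le
    linarith
  -- the claim
  have claim : ∀ η ξ : ℝ, 0 < η → η < 1 → 0 < ξ →
      z univ ≤ Real.exp (1 / (D * (1 - η)) * (Ph L κ 1 + L * ξ)) := by
    intro η ξ hη0 hη1 hξ
    obtain ⟨M, hM⟩ : ∃ M, M = 1 / (D * (1 - η)) := ⟨_, rfl⟩
    rw [← hM]
    have h1η : 0 < 1 - η := by linarith
    have hM0 : 0 < M := by rw [hM]; positivity
    have hMD : 1 / D ≤ M := by
      rw [hM]
      apply one_div_le_one_div_of_le (by positivity)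
      nlinarith
    obtain ⟨m, hm⟩ := exists_nat_gt (M * L + M ^ 2 * L * D / η)
    have hm0 : (0 : ℝ) < m := lt_trans (by positivity) hm
    have hm1 : 1 ≤ m := by
      have : 0 < m := by exact_mod_cast hm0
      omega
    obtain ⟨Q, hQm, hQu, hQs⟩ := hQ m hm1
    obtain ⟨b0, hb0⟩ : ∃ b0, b0 = η * D * ξ ^ 2 / m := ⟨_, rfl⟩
    have hb00 : 0 < b0 := by rw [hb0]; positivity
    obtain ⟨st, hst⟩ : ∃ st, st = min b0 ((1 - η) * D * ξ) := ⟨_, rfl⟩
    have hst0 : 0 < st := by rw [hst]; exact lt_min hb00 (by positivity)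
    have hst1 : st ≤ b0 := by rw [hst]; exact min_le_left _ _
    have hst2 : st ≤ (1 - η) * D * ξ := by rw [hst]; exact min_le_right _ _
    have small : ∀ K : Set Ω, MeasurableSet K → μ.real K ≤ κ + ξ →
        z K ≤ Real.exp (M * (Ph L κ (μ.real K) + L * ξ)) := by
      intro K hK hKs
      refine (hz1 K hK).trans (Real.exp_le_exp.2 ?_)
      have h1 := Ph_base hL0 hξ.le hKs
      have h0 : 0 ≤ L * μ.real K := mul_nonneg hL0.le measureReal_nonneg
      calc lam * μ.real K = 1 / D * (L * μ.real K) := by rw [hL]; field_simp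
        _ ≤ M * (L * μ.real K) := mul_le_mul_of_nonneg_right hMD h0
        _ ≤ _ := mul_le_mul_of_nonneg_left h1 hM0.le
    have main : ∀ j : ℕ, ∀ K : Set Ω, MeasurableSet K → μ.real K ≤ κ + ξ + j * st →
        z K ≤ Real.exp (M * (Ph L κ (μ.real K) + L * ξ)) := by
      intro j
      induction j with
      | zero =>
        intro K hK h
        rw [Nat.cast_zero, zero_mul, add_zero] at h
        exact small K hK h
      | succ j ih =>
        intro K hK hKj
        by_cases hKs : μ.real K ≤ κ + ξ
        · exact small K hK hKs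
        rw [not_le] at hKs
        set g := μ.real K with hg
        have hh : ξ < g - κ := by linarith
        have hgκ : κ < g := by linarith
        have hg0 : ξ < g := by linarith
        have hg1 : g ≤ 1 := measureReal_le_one
        -- the heavy points
        set H : Set Ω := K ∩ {u | (1 - η) * D * (g - κ) ≤ μ.real (K ∩ N u)} with hH
        have hHm : MeasurableSet H := hK.inter (measurableSet_le measurable_const (hNm K hK))
        have hHK : H ⊆ K := inter_subset_left
        have hHη : η * D * ξ ^ 2 ≤ μ.real H := by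
          have hint : Integrable (fun x => μ.real (K ∩ N x)) μ := by
            refine Integrable.of_bound (hNm K hK).aestronglyMeasurable 1 ?_
            filter_upwards with x
            rw [Real.norm_eq_abs, abs_of_nonneg measureReal_nonneg]
            exact measureReal_le_one
          have h1 := hsup K hK
          have h2 : ∫ x in K, μ.real (K ∩ N x) ∂μ =
              ∫ x in H, μ.real (K ∩ N x) ∂μ + ∫ x in K \ H, μ.real (K ∩ N x) ∂μ := by
            rw [← setIntegral_union disjoint_sdiff_right (hK.diff hHm) hint.integrableOn hint.integrableOn,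
              union_diff_cancel hHK]
          have h3 : ∫ x in H, μ.real (K ∩ N x) ∂μ ≤ ∫ x in H, (1:ℝ) ∂μ := by
            refine setIntegral_mono_on hint.integrableOn (integrable_const _).integrableOn hHm ?_
            intro x _
            exact measureReal_le_one
          have h4 : ∫ x in K \ H, μ.real (K ∩ N x) ∂μ ≤ ∫ x in K \ H, (1 - η) * D * (g - κ) ∂μ := by
            refine setIntegral_mono_on hint.integrableOn (integrable_const _).integrableOn
              (hK.diff hHm) ?_
            intro x hx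
            have h5 : ¬ (1 - η) * D * (g - κ) ≤ μ.real (K ∩ N x) := fun h => hx.2 ⟨hx.1, h⟩
            exact (not_le.1 h5).le
          rw [setIntegral_const, smul_eq_mul] at h3 h4
          have h5 : μ.real (K \ H) ≤ g := measureReal_mono diff_subset
          have h6 : 0 ≤ (1 - η) * D * (g - κ) := by
            have : 0 < g - κ := by linarith
            positivity
          have h7 := mul_le_mul_of_nonneg_right h5 h6
          have h8 : ξ ^ 2 ≤ g * (g - κ) := by nlinarith
          have h9 : η * D * ξ ^ 2 ≤ η * D * (g * (g - κ)) := mul_le_mul_of_nonneg_left h8 (by positivity)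
          have e9 : D * (g ^ 2 - κ * g) = g * ((1 - η) * D * (g - κ)) + η * D * (g * (g - κ)) := by ring
          rw [e9] at h1
          linarith
        -- a cell
        obtain ⟨i, hi⟩ : ∃ i, b0 ≤ μ.real (H ∩ Q i) := by
          by_contra hcon
          push Not at hcon
          have h1 : H = ⋃ i, H ∩ Q i := by rw [← inter_iUnion, hQu, inter_univ]
          have h2 : μ.real H ≤ ∑ i, μ.real (H ∩ Q i) := by
            conv_lhs => rw [h1]
            exact measureReal_iUnion_fintype_le _
          have h3 : ∑ i : Fin m, μ.real (H ∩ Q i) < ∑ _i : Fin m, b0 := by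
            refine Finset.sum_lt_sum_of_nonempty ?_ fun i _ => hcon i
            exact ⟨⟨0, by omega⟩, Finset.mem_univ _⟩
          rw [Finset.sum_const, Finset.card_univ, Fintype.card_fin, nsmul_eq_mul, hb0,
            mul_div_cancel₀ _ hm0.ne'] at h3
          linarith
        set B := H ∩ Q i with hB
        have hBm : MeasurableSet B := hHm.inter (hQm i)
        have hBK : B ⊆ K := inter_subset_left.trans hHK
        set β := μ.real B with hβ
        have hβ0 : 0 ≤ β := measureReal_nonneg
        have hβm : β ≤ 1 / m := (measureReal_mono inter_subset_right).trans (hQs i)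
        have hβg : β ≤ g := measureReal_mono hBK
        have hKB : μ.real (K \ B) = g - β := by rw [measureReal_diff hBK hBm]
        have hcast : ((j + 1 : ℕ) : ℝ) * st = j * st + st := by push_cast; ring
        rw [hcast] at hKj
        have ihB := ih (K \ B) (hK.diff hBm) (by rw [hKB]; linarith)
        rw [hKB] at ihB
        have hKN : ∀ u ∈ B, μ.real (K \ N u) ≤ g - (1 - η) * D * (g - κ) := by
          intro u hu
          have h1 : μ.real (K ∩ N u) + μ.real (K \ N u) = g := measureReal_inter_add_diff (hN u)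
          have h2 : (1 - η) * D * (g - κ) ≤ μ.real (K ∩ N u) := hu.1.2
          linarith
        have hBne : B.Nonempty := by
          by_contra hne
          rw [not_nonempty_iff_eq_empty] at hne
          have : β = 0 := by rw [hβ, hne, measureReal_empty]
          linarith
        have hdg : (1 - η) * D * (g - κ) ≤ g := by
          obtain ⟨u, hu⟩ := hBne
          have h1 := hKN u hu
          have h2 : 0 ≤ μ.real (K \ N u) := measureReal_nonneg
          linarith
        have h1 : ∀ u ∈ B, z (K \ N u) ≤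
            Real.exp (M * (Ph L κ (g - (1 - η) * D * (g - κ)) + L * ξ)) := by
          intro u hu
          have h2 := hKN u hu
          have h2' : (1 - η) * D * ξ ≤ (1 - η) * D * (g - κ) :=
            mul_le_mul_of_nonneg_left hh.le (by positivity)
          have h3 := ih (K \ N u) (hK.diff (hN u)) (by linarith)
          refine h3.trans (Real.exp_le_exp.2 ?_)
          refine mul_le_mul_of_nonneg_left ?_ hM0.le
          have := Ph_mono (κ := κ) hL0 (measureReal_nonneg : 0 ≤ μ.real (K \ N u)) h2
          linarith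
        have h2 := hzr K hK B hBK hBm _ h1
        have hβ1 : M * L * β ≤ 1 := by
          have h3 : M * L * β ≤ M * L * (1 / m) := mul_le_mul_of_nonneg_left hβm (by positivity)
          refine h3.trans ?_
          rw [mul_one_div, div_le_one hm0]
          have : 0 ≤ M ^ 2 * L * D / η := by positivity
          linarith
        have hβ2 : M ^ 2 * L * β ≤ η / D := by
          have h3 : M ^ 2 * L * β ≤ M ^ 2 * L * (1 / m) := mul_le_mul_of_nonneg_left hβm (by positivity)
          refine h3.trans ?_
          rw [mul_one_div, div_le_div_iff₀ hm0 hD]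
          have h4 : M ^ 2 * L * D / η ≤ m := by
            have : 0 ≤ M * L := by positivity
            linarith
          rw [div_le_iff₀ hη0] at h4
          linarith
        have h3 := step_ineq (ξ := ξ) hL0 hD hL.symm hη0 hη1 hM hgκ hβ0 hβg hdg hβ1 hβ2
        exact (h2.trans (add_le_add ihB le_rfl)).trans h3
    obtain ⟨j, hj⟩ := exists_nat_gt (1 / st)
    have h1 := main j univ MeasurableSet.univ (by
      rw [probReal_univ]
      rw [div_lt_iff₀ hst0] at hj
      linarith)
    rwa [probReal_univ] at h1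
  -- the limit
  have hPh1 : Ph L κ 1 ≤ w + w ^ 2 / 2 + κ * L := by
    unfold Ph
    split_ifs with h
    · have : 0 ≤ w + w ^ 2 / 2 := by positivity
      have := mul_le_mul_of_nonneg_left h hL0.le
      linarith
    · rw [not_le] at h
      have h1 : PP L (1 - κ) ≤ PP L 1 := PP_mono hL0 (by linarith) (by linarith)
      have h2 : psi L 1 = w := psi_eq hL0 zero_le_one hw.le (by rw [hL, hlamw, mul_one])
      have h3 : PP L 1 = w + w ^ 2 / 2 := by unfold PP; rw [h2]
      linarith
  have hzu := hz0 univ MeasurableSet.univ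
  rw [← Real.log_le_iff_le_exp hzu, le_div_iff₀ hD, ← hL]
  refine le_trans ?_ hPh1
  obtain ⟨ℓ, hℓ⟩ : ∃ ℓ, ℓ = Real.log (z univ) := ⟨_, rfl⟩
  rw [← hℓ]
  have key : ∀ ε : ℝ, 0 < ε → ε < 1 → ℓ * D ≤ Ph L κ 1 + ε * (L + ℓ * D) := by
    intro ε hε0 hε1
    have h1 := claim ε ε hε0 hε1 hε0
    rw [← Real.log_le_iff_le_exp hzu, ← hℓ] at h1
    have h2 : 0 < D * (1 - ε) := mul_pos hD (by linarith)
    rw [one_div, inv_mul_eq_div, le_div_iff₀ h2] at h1
    linarith
  by_contra hcon
  rw [not_le] at hcon
  obtain ⟨δ, hδ⟩ : ∃ δ, δ = ℓ * D - Ph L κ 1 := ⟨_, rfl⟩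
  have hδ0 : 0 < δ := by rw [hδ]; linarith
  obtain ⟨T, hT⟩ : ∃ T, T = |L + ℓ * D| + 1 := ⟨_, rfl⟩
  have hT0 : 0 < T := by rw [hT]; positivity
  have h1 := key (min (1 / 2) (δ / (2 * T))) (lt_min (by norm_num) (by positivity))
    ((min_le_left _ _).trans_lt (by norm_num))
  have h2 : min (1 / 2) (δ / (2 * T)) * (L + ℓ * D) ≤ δ / (2 * T) * T := by
    have h3 : L + ℓ * D ≤ T := by rw [hT]; linarith [le_abs_self (L + ℓ * D)]
    have h4 : 0 ≤ min (1 / 2) (δ / (2 * T)) := le_min (by norm_num) (by positivity)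
    calc min (1 / 2) (δ / (2 * T)) * (L + ℓ * D) ≤ min (1 / 2) (δ / (2 * T)) * T :=
          mul_le_mul_of_nonneg_left h3 h4
      _ ≤ _ := mul_le_mul_of_nonneg_right (min_le_right _ _) hT0.le
  have h5 : δ / (2 * T) * T = δ / 2 := by field_simp
  linarith

end Pool.Agent.N42.HG
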